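import Mathlib
import Pool.Agent.H77.GQ.Stm3
import Pool.Agent.H49.TD.Uex

/-!
# GQ: a free arrangement of `n ≥ 1` planes has exponents `1, a, b`
-/

set_option autoImplicit false

open MvPolynomial Module Pool.Agent.H77.TF

namespace Pool.Agent.H49.GQ

theorem hasExp_perm {K : Type} [Field K] {l : ℕ} {ν : Type} {A : ν → Fin l → K} {e : Fin l → ℕ}
    (h : HasExp A e) (σ : Equiv.Perm (Fin l)) : HasExp A fun j => e (σ j) := by
  obtain ⟨b, hb⟩ := h
  refine ⟨b.reindex σ.symm, fun j i => ?_⟩
  rw [Basis.reindex_apply, Equiv.symm_symm]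
  exact hb (σ j) i

theorem exo (hGRD : S_GRD) : Pool.Agent.H77.GQ.S_EXO := by
  classical
  intro K _ n A hA hn hfree
  obtain ⟨e, he⟩ := hGRD K 3 (Fin n) A hA hfree
  have key : ∃ j, e j = 1 := by
    by_contra hno
    push Not at hno
    obtain ⟨b, hb⟩ := he
    set i0 : Fin n := ⟨0, hn⟩
    have hlin : (lin (A i0)).IsHomogeneous 1 := by
      refine IsHomogeneous.sum _ _ _ fun j _ => ?_
      simpa using (isHomogeneous_C (Fin 3) (A i0 j)).mul (isHomogeneous_X K j)
    have hlin0 : lin (A i0) ≠ 0 := by
      intro h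
      apply hA.1 i0
      funext j
      have h1 := congrArg (coeff (Finsupp.single j 1)) h
      unfold lin at h1
      rw [coeff_sum, Finset.sum_eq_single j] at h1
      · simpa [coeff_C_mul, coeff_X] using h1
      · intro k _ hk
        rw [coeff_C_mul, coeff_X, if_neg, mul_zero]
        intro h2
        exact hk (Finsupp.single_left_injective one_ne_zero h2)
      · intro h2
        exact absurd (Finset.mem_univ j) h2
    have hθ : (fun j => X j : Fin 3 → MvPolynomial (Fin 3) K) ∈ LD A := fun i => dvd_refl _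
    have h1 := Pool.Agent.H49.TD.mem_low A e b hb 1 ⟨_, hθ⟩ (fun i => isHomogeneous_X K i)
    have h2 : ∀ v : LD A, v ∈ Submodule.span (MvPolynomial (Fin 3) K)
        (Set.range fun j : {j // e j ≤ 1} => (b j.1 : LD A)) →
        evl (A i0) (v : Fin 3 → MvPolynomial (Fin 3) K) = 0 := by
      intro v hv
      induction hv using Submodule.span_induction with
      | mem x hx =>
        obtain ⟨⟨j, hj⟩, rfl⟩ := hx
        have hj0 : e j = 0 := by
          have := hno j
          omega
        have h3 : (evl (A i0) (b j : Fin 3 → MvPolynomial (Fin 3) K)).IsHomogeneous 0 := by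
          refine IsHomogeneous.sum _ _ _ fun i _ => ?_
          have h4 := hb j i
          rw [hj0] at h4
          simpa using (isHomogeneous_C (Fin 3) (A i0 i)).mul h4
        by_contra h4
        obtain ⟨g, hg⟩ := (b j).2 i0
        have hg' : evl (A i0) (b j : Fin 3 → MvPolynomial (Fin 3) K) = lin (A i0) * g := hg
        have hg0 : g ≠ 0 := by
          rintro rfl
          exact h4 (by rw [hg', mul_zero])
        have h5 := h3.totalDegree h4
        rw [hg', totalDegree_mul_of_isDomain hlin0 hg0, hlin.totalDegree hlin0] at h5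
        omega
      | zero => simp [evl]
      | add x y _ _ hx hy =>
        have h3 : evl (A i0) ((x + y : LD A) : Fin 3 → MvPolynomial (Fin 3) K) =
            evl (A i0) (x : Fin 3 → MvPolynomial (Fin 3) K) +
              evl (A i0) (y : Fin 3 → MvPolynomial (Fin 3) K) := by
          simp [evl, mul_add, Finset.sum_add_distrib]
        rw [h3, hx, hy, add_zero]
      | smul f x _ hx =>
        have h3 : evl (A i0) ((f • x : LD A) : Fin 3 → MvPolynomial (Fin 3) K) =
            f * evl (A i0) (x : Fin 3 → MvPolynomial (Fin 3) K) := by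
          show evl (A i0) (f • (x : Fin 3 → MvPolynomial (Fin 3) K)) = _
          simp only [evl, Finset.mul_sum, Pi.smul_apply, smul_eq_mul]
          exact Finset.sum_congr rfl fun j _ => by ring
        rw [h3, hx, mul_zero]
    have h3 : evl (A i0) (fun j => X j) = 0 := h2 ⟨fun j => X j, hθ⟩ h1
    have h4 : lin (A i0) = evl (A i0) (fun j => X j) := by
      unfold lin evl
      rfl
    exact hlin0 (h4.trans h3)
  obtain ⟨j0, hj0⟩ := key
  have h1 := hasExp_perm he (Equiv.swap 0 j0)
  have h2 : (fun j => e (Equiv.swap 0 j0 j)) = ![1, e (Equiv.swap 0 j0 1), e (Equiv.swap 0 j0 2)] := by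
    funext j
    fin_cases j
    · show e (Equiv.swap 0 j0 0) = 1
      rw [Equiv.swap_apply_left, hj0]
    · rfl
    · rfl
  rw [h2] at h1
  rcases le_total (e (Equiv.swap 0 j0 1)) (e (Equiv.swap 0 j0 2)) with h | h
  · exact ⟨_, _, h, h1⟩
  · refine ⟨_, _, h, ?_⟩
    have h3 := hasExp_perm h1 (Equiv.swap 1 2)
    have h4 : (fun j => (![1, e (Equiv.swap 0 j0 1), e (Equiv.swap 0 j0 2)] : Fin 3 → ℕ)
        (Equiv.swap 1 2 j)) = ![1, e (Equiv.swap 0 j0 2), e (Equiv.swap 0 j0 1)] := by
      funext j
      fin_cases j <;> rfl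
    rw [h4] at h3
    exact h3

end Pool.Agent.H49.GQ
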