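import Mathlib
import Pool.Agent.H77.GQ.Stm
import Pool.Agent.H49.TD.Uex

/-!
# GQ: the multiplicities of a free arrangement with exponents `1, a, b` are at most `b + 1`
-/

set_option autoImplicit false

open MvPolynomial Module Pool.Agent.H77.TF Pool.Agent.H77.GR

namespace Pool.Agent.H49.GQ

theorem exists_nrm {K : Type} [Field K] (W : Submodule K (Fin 3 → K)) (hW : finrank K W = 2) :
    ∃ x : Fin 3 → K, x ≠ 0 ∧ ∀ w ∈ W, ∑ i, w i * x i = 0 := by
  classical
  have h1 : W < ⊤ := by
    refine lt_top_iff_ne_top.2 fun h => ?_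
    rw [h, finrank_top, finrank_fin_fun] at hW
    omega
  obtain ⟨f, hf, hfW⟩ := Submodule.exists_dual_map_eq_bot_of_lt_top h1 inferInstance
  refine ⟨fun i => f (Pi.single i 1), fun h => hf ?_, fun w hw => ?_⟩
  · refine LinearMap.pi_ext' fun i => ?_
    apply LinearMap.ext_ring
    exact congrFun h i
  · have h2 : f w = 0 := by
      have h3 : f w ∈ Submodule.map f W := ⟨w, hw, rfl⟩
      rw [hfW] at h3
      exact (Submodule.mem_bot K).1 h3
    rw [← h2]
    conv_rhs => rw [← Finset.univ_sum_single w]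
    rw [map_sum]
    refine Finset.sum_congr rfl fun i _ => ?_
    have h4 : (Pi.single i (w i) : Fin 3 → K) = w i • (Pi.single i 1 : Fin 3 → K) := by
      rw [← Pi.single_smul', smul_eq_mul, mul_one]
    rw [h4, map_smul, smul_eq_mul]

theorem span_single_mem {K : Type} [Field K] {ν : Type} (A : ν → Fin 3 → K) (e : Fin 3 → ℕ)
    (b : Basis (Fin 3) (MvPolynomial (Fin 3) K) (LD A)) (d : ℕ) (v : LD A)
    (h1 : ∀ j, e j ≤ d → j = 0)
    (h : v ∈ Submodule.span (MvPolynomial (Fin 3) K)
      (Set.range fun j : {j // e j ≤ d} => (b j.1 : LD A))) : ∃ c : MvPolynomial (Fin 3) K,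
      v = c • b 0 := by
  have h2 : v ∈ Submodule.span (MvPolynomial (Fin 3) K) ({b 0} : Set (LD A)) := by
    refine Submodule.span_mono ?_ h
    rintro _ ⟨j, rfl⟩
    rw [Set.mem_singleton_iff]
    exact congrArg b (h1 j.1 j.2)
  obtain ⟨c, hc⟩ := Submodule.mem_span_singleton.1 h2
  exact ⟨c, hc.symm⟩

theorem mlq (hN : Pool.Agent.H77.GQ.S_NUQ) : Pool.Agent.H77.GQ.S_MLT := by
  classical
  intro K _ n A a b hA hab hX W hW
  obtain ⟨hn, -⟩ := hN K n A a b hA hX
  obtain ⟨x, hx0, hx⟩ := exists_nrm W hW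
  by_contra hlt
  rw [not_le, Nat.card_eq_fintype_card, Fintype.card_subtype] at hlt
  obtain ⟨B, hB⟩ := hX
  set P : MvPolynomial (Fin 3) K := ∏ i ∈ Finset.univ.filter (fun i => A i ∉ W), lin (A i) with hP
  set d : ℕ := (Finset.univ.filter (fun i => A i ∉ W)).card with hd
  have hcard : (Finset.univ.filter (fun i => A i ∈ W)).card + d = n := by
    have := Finset.card_filter_add_card_filter_not (s := (Finset.univ : Finset (Fin n)))
      (fun i => A i ∈ W)
    rw [Finset.card_univ, Fintype.card_fin] at this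
    exact this
  have hda : d < a := by omega
  have hlin : ∀ i, (lin (A i)).IsHomogeneous 1 := by
    intro i
    unfold lin
    refine IsHomogeneous.sum _ _ _ fun j _ => ?_
    simpa using (isHomogeneous_C (Fin 3) (A i j)).mul (isHomogeneous_X K j)
  have hlin0 : ∀ i, lin (A i) ≠ 0 := by
    intro i h
    apply hA.1 i
    funext j
    have h1 := congrArg (coeff (Finsupp.single j 1)) h
    unfold lin at h1
    rw [coeff_sum, Finset.sum_eq_single j] at h1
    · simpa [coeff_C_mul, coeff_X] using h1
    · intro k _ hk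
      rw [coeff_C_mul, coeff_X', if_neg, mul_zero]
      intro h2
      exact hk (Finsupp.single_left_injective one_ne_zero h2)
    · intro h2
      exact absurd (Finset.mem_univ j) h2
  have hPh : P.IsHomogeneous d := by
    have := IsHomogeneous.prod (Finset.univ.filter (fun i => A i ∉ W)) (fun i => lin (A i))
      (fun _ => 1) fun i _ => hlin i
    rw [Finset.sum_const, smul_eq_mul, mul_one] at this
    exact this
  have hP0 : P ≠ 0 := Finset.prod_ne_zero_iff.2 fun i _ => hlin0 i
  have hψ : (fun j => C (x j) * P : Fin 3 → MvPolynomial (Fin 3) K) ∈ LD A := by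
    intro i
    by_cases hi : A i ∈ W
    · have h1 : evl (A i) (fun j => C (x j) * P) = 0 := by
        unfold evl
        have h2 : ∀ j, C (A i j) * (C (x j) * P) = C (A i j * x j) * P := by
          intro j
          rw [C_mul, mul_assoc]
        rw [Finset.sum_congr rfl fun j _ => h2 j, ← Finset.sum_mul, ← map_sum, hx _ hi, C_0, zero_mul]
      rw [h1]
      exact dvd_zero _
    · have h1 : lin (A i) ∣ P := Finset.dvd_prod_of_mem _ (by simp [hi])
      unfold evl
      exact Finset.dvd_sum fun j _ => ((h1.mul_left _).mul_left _)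
  have h1 := Pool.Agent.H49.TD.mem_low A ![1, a, b] B hB d ⟨_, hψ⟩ (fun i => by
    simpa using (isHomogeneous_C (Fin 3) (x i)).mul hPh)
  have hj0 : ∀ j, (![1, a, b] : Fin 3 → ℕ) j ≤ d → j = 0 := by
    intro j hj
    fin_cases j
    · rfl
    · exfalso
      have : a ≤ d := hj
      omega
    · exfalso
      have : b ≤ d := hj
      omega
  obtain ⟨c, hc⟩ := span_single_mem A _ B d _ hj0 h1
  obtain ⟨j0, hj0'⟩ := Function.ne_iff.1 hx0
  rcases Nat.eq_zero_or_pos d with hd0 | hdpos
  · -- no member of the basis has degree zero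
    have h2 : (Set.range fun j : {j // (![1, a, b] : Fin 3 → ℕ) j ≤ d} => (B j.1 : LD A)) = ∅ := by
      rw [Set.range_eq_empty_iff]
      refine ⟨fun j => ?_⟩
      have h3 := j.2
      rw [hj0 _ h3] at h3
      have : 1 ≤ d := h3
      omega
    rw [h2, Submodule.span_empty, Submodule.mem_bot] at h1
    have h3 := congrFun (congrArg Subtype.val h1) j0
    have h4 : C (x j0) * P = 0 := h3
    rcases mul_eq_zero.1 h4 with h5 | h5
    · exact hj0' (C_injective (Fin 3) K (by rw [h5, Pi.zero_apply, C_0]))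
    · exact hP0 h5
  · have hθ : (fun j => X j : Fin 3 → MvPolynomial (Fin 3) K) ∈ LD A := fun i => dvd_refl _
    have h2 := Pool.Agent.H49.TD.mem_low A ![1, a, b] B hB 1 ⟨_, hθ⟩ (fun i => isHomogeneous_X K i)
    obtain ⟨c', hc'⟩ := span_single_mem A _ B 1 _ (fun j hj => hj0 j (hj.trans hdpos)) h2
    have h3 : ∀ i, C (x i) * P = c * (B 0 : Fin 3 → MvPolynomial (Fin 3) K) i := fun i =>
      congrFun (congrArg Subtype.val hc) i
    have h4 : ∀ i, (X i : MvPolynomial (Fin 3) K) = c' * (B 0 : Fin 3 → MvPolynomial (Fin 3) K) i :=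
      fun i => congrFun (congrArg Subtype.val hc') i
    have hc'0 : c' ≠ 0 := by
      rintro rfl
      have := h4 0
      rw [zero_mul] at this
      exact X_ne_zero _ this
    -- choose another index
    obtain ⟨j1, hj1⟩ : ∃ j1 : Fin 3, j1 ≠ j0 := exists_ne j0
    have h5 : (c' * P) * (C (x j0) * X j1 - C (x j1) * X j0) = 0 := by
      have e0 := h3 j0
      have e1 := h3 j1
      have f0 := h4 j0
      have f1 := h4 j1
      calc (c' * P) * (C (x j0) * X j1 - C (x j1) * X j0)
          = c' * ((C (x j0) * P) * X j1 - (C (x j1) * P) * X j0) := by ring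
        _ = 0 := by rw [e0, e1, f0, f1]; ring
    rcases mul_eq_zero.1 h5 with h6 | h6
    · rcases mul_eq_zero.1 h6 with h7 | h7
      · exact hc'0 h7
      · exact hP0 h7
    · have h7 := congrArg (coeff (Finsupp.single j1 1)) h6
      have h8 : ¬ (Finsupp.single j0 1 : Fin 3 →₀ ℕ) = Finsupp.single j1 1 := fun h8 =>
        hj1 (Finsupp.single_left_injective one_ne_zero h8).symm
      rw [coeff_sub, coeff_C_mul, coeff_C_mul, coeff_X, coeff_X, if_pos rfl, if_neg h8, mul_zero,
        mul_one, sub_zero, coeff_zero] at h7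
      exact hj0' h7

end Pool.Agent.H49.GQ
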