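import Mathlib
import Pool.Agent.H77.GQ.Stm

/-!
# GQ: the number of the planes and the second coefficient from the exponents (NUQ)
-/

set_option autoImplicit false

open MvPolynomial Module Pool.Agent.H77.TF Pool.Agent.H77.GR

namespace Pool.Agent.H49.GQ

theorem two_choose (k : ℕ) : 2 * (((k + 2).choose 2 : ℕ) : ℤ) = (k + 1) * (k + 2) := by
  induction k with
  | zero => simp
  | succ k ih =>
    have h1 : (k + 1 + 2).choose 2 = (k + 2) + (k + 2).choose 2 := by
      rw [show k + 1 + 2 = (k + 2) + 1 from rfl, Nat.choose_succ_succ' (k + 2) 1, Nat.choose_one_right]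
    rw [h1]
    push_cast
    linear_combination ih

theorem nuq (hF : Pool.Agent.H77.GQ.S_DMF) (hE : Pool.Agent.H77.GQ.S_DME) :
    Pool.Agent.H77.GQ.S_NUQ := by
  intro K _ n A a b hA hX
  have key : ∀ m : ℕ, n ≤ m + 1 → 1 ≤ m → a ≤ m → b ≤ m →
      (m : ℤ) * (m + 1) + (m - a + 1) * (m - a + 2) + (m - b + 1) * (m - b + 2) =
        3 * ((m + 1) * (m + 2)) - 2 * (n * (m + 1)) +
          2 * ∑ s : Fin n, ((s : ℕ) - Pool.Agent.H77.GQ.hn A s : ℤ) := by
    intro m h1 h2 h3 h4
    have h5 := hF K n A hA m h1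
    have h6 := hE K (Fin n) A ![1, a, b] hX m (by
      intro j
      fin_cases j
      · exact h2
      · exact h3
      · exact h4)
    rw [Fin.sum_univ_three] at h6
    have h7 : finrank K (LRm A m) = (m - 1 + 2).choose 2 + (m - a + 2).choose 2 + (m - b + 2).choose 2 := h6
    rw [h7] at h5
    push_cast at h5
    have h8 := two_choose (m - 1)
    have h9 := two_choose (m - a)
    have h10 := two_choose (m - b)
    have h11 := two_choose m
    rw [Nat.cast_sub h2] at h8
    rw [Nat.cast_sub h3] at h9
    rw [Nat.cast_sub h4] at h10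
    push_cast at h8 h9 h10 h11 ⊢
    linear_combination 2 * h5 - h8 - h9 - h10 + 3 * h11
  have k1 := key (n + a + b + 1) (by omega) (by omega) (by omega) (by omega)
  have k2 := key (n + a + b + 2) (by omega) (by omega) (by omega) (by omega)
  push_cast at k1 k2
  have h1 : (n : ℤ) = 1 + a + b := by linarith
  refine ⟨by exact_mod_cast h1, ?_⟩
  rw [h1] at k1
  linarith

end Pool.Agent.H49.GQ
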